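import Pool.Agent.H49.G.R_seed8.Y957.VK.Stm
import Pool.Agent.H49.G.R_seed8.Helper240.ZU.A1

/-!
# Project VK, job VK-ZETA: the zeta function near the line `Re s = 1`
-/

set_option autoImplicit false

namespace Pool.Agent.Y306.VK

open Finset Filter

/-- Abel's inequality, with the boundary term -/
theorem abel {a : ℕ → ℝ} {z : ℕ → ℂ} {M M' : ℕ} {B : ℝ}
    (ha : ∀ n, M ≤ n → a (n + 1) ≤ a n)
    (hB : ∀ k, M ≤ k → k ≤ M' → ‖∑ n ∈ Ioc M k, z n‖ ≤ B) :
    ∀ k, M ≤ k → k ≤ M' →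
      ‖∑ n ∈ Ioc M k, (a n : ℂ) * z n - a k * ∑ n ∈ Ioc M k, z n‖ ≤ (a M - a k) * B := by
  intro k hk
  induction k, hk using Nat.le_induction with
  | base => intro _; simp
  | succ k hk ih =>
    intro hk'
    have h1 := ih (by omega)
    have h2 := hB k hk (by omega)
    rw [Finset.sum_Ioc_succ_top (by omega), Finset.sum_Ioc_succ_top (by omega)]
    have e1 : (∑ n ∈ Ioc M k, (a n : ℂ) * z n) + (a (k + 1) : ℂ) * z (k + 1) -
        (a (k + 1) : ℂ) * ((∑ n ∈ Ioc M k, z n) + z (k + 1)) =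
        (∑ n ∈ Ioc M k, (a n : ℂ) * z n - a k * ∑ n ∈ Ioc M k, z n) +
          ((a k - a (k + 1) : ℝ) : ℂ) * ∑ n ∈ Ioc M k, z n := by
      push_cast
      ring
    rw [e1]
    have h3 : ‖((a k - a (k + 1) : ℝ) : ℂ) * ∑ n ∈ Ioc M k, z n‖ ≤ (a k - a (k + 1)) * B := by
      rw [norm_mul, Complex.norm_real, Real.norm_of_nonneg (sub_nonneg.2 (ha k hk))]
      exact mul_le_mul_of_nonneg_left h2 (sub_nonneg.2 (ha k hk))
    calc _ ≤ (a M - a k) * B + (a k - a (k + 1)) * B := (norm_add_le _ _).trans (add_le_add h1 h3)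
      _ = _ := by ring

theorem abel' {a : ℕ → ℝ} {z : ℕ → ℂ} {M M' : ℕ} {B : ℝ} (hM : M ≤ M')
    (ha : ∀ n, M ≤ n → a (n + 1) ≤ a n) (ha0 : 0 ≤ a M')
    (hB : ∀ k, M ≤ k → k ≤ M' → ‖∑ n ∈ Ioc M k, z n‖ ≤ B) :
    ‖∑ n ∈ Ioc M M', (a n : ℂ) * z n‖ ≤ a M * B := by
  have h1 := abel ha hB M' hM le_rfl
  have h2 : ‖(a M' : ℂ) * ∑ n ∈ Ioc M M', z n‖ ≤ a M' * B := by
    rw [norm_mul, Complex.norm_real, Real.norm_of_nonneg ha0]
    exact mul_le_mul_of_nonneg_left (hB M' hM le_rfl) ha0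
  have h3 := norm_add_le (∑ n ∈ Ioc M M', (a n : ℂ) * z n - a M' * ∑ n ∈ Ioc M M', z n)
    ((a M' : ℂ) * ∑ n ∈ Ioc M M', z n)
  rw [sub_add_cancel] at h3
  linarith

theorem term_eq {n : ℕ} (hn : n ≠ 0) (σ t : ℝ) :
    (n : ℂ) ^ (-(⟨σ, t⟩ : ℂ)) = (((n : ℝ) ^ (-σ) : ℝ) : ℂ) * (n : ℂ) ^ (-(t : ℂ) * Complex.I) := by
  have hn' : (n : ℂ) ≠ 0 := by exact_mod_cast hn
  rw [Complex.ofReal_cpow (Nat.cast_nonneg n)]
  have h1 : (((n : ℝ)) : ℂ) = (n : ℂ) := by push_cast; rfl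
  rw [h1, ← Complex.cpow_add _ _ hn']
  congr 1
  apply Complex.ext
  · simp
  · simp

/-- the numbers -/
structure Num (C : ℕ) (c L u v w : ℝ) : Prop where
  c0 : 0 < c
  u1 : 1 ≤ u
  uv : u ^ (C + 3) = v
  v2 : v ^ 2 = L
  hv : 8 * (1 + C * 2 ^ C) ≤ c * v
  hv2 : 2 ≤ v
  hw : w * L = u

namespace Num

variable {C : ℕ} {c L u v w : ℝ}

theorem L4 (h : Num C c L u v w) : 4 ≤ L := by
  have h1 := h.v2
  have h2 := h.hv2
  nlinarith

theorem uv3 (h : Num C c L u v w) : u ^ 3 ≤ v := by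
  rw [← h.uv]
  exact pow_le_pow_right₀ h.u1 (by omega)

theorem u_le_v (h : Num C c L u v w) : u ≤ v := by
  have h1 : u ^ 1 ≤ u ^ (C + 3) := pow_le_pow_right₀ h.u1 (by omega)
  rw [pow_one, h.uv] at h1
  exact h1

theorem u_le (h : Num C c L u v w) : 2 * u ≤ L := by
  have h1 := h.u_le_v
  have h2 := h.hv2
  rw [← h.v2]
  nlinarith

theorem w0 (h : Num C c L u v w) : 0 < w := by
  have h1 := h.hw
  have h2 := h.L4
  have h3 := h.u1
  by_contra hcon
  push Not at hcon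
  nlinarith

theorem w_le (h : Num C c L u v w) : w ≤ 1 / 2 := by
  have h1 := h.hw
  have h2 := h.u_le
  have h3 := h.L4
  by_contra hcon
  push Not at hcon
  nlinarith

/-- the exponent of a piece -/
theorem piece (h : Num C c L u v w) {κ m : ℝ} (hm : L / u ≤ m) (hκ : κ = L / m) :
    C * (1 + κ) ^ C + m * (w - c / (1 + κ) ^ 2) ≤ 0 := by
  have hL := h.L4
  have hu := h.u1
  have hc := h.c0
  have hL0 : 0 < L := by linarith
  have hu0 : 0 < u := by linarith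
  have hm0 : 0 < m := lt_of_lt_of_le (by positivity) hm
  have hκ0 : 0 < κ := by rw [hκ]; positivity
  have hκu : κ ≤ u := by
    rw [hκ, div_le_iff₀ hm0]
    rw [div_le_iff₀ hu0] at hm
    linarith
  have h1 : 1 + κ ≤ 2 * u := by linarith
  have h2 : (1 + κ) ^ C ≤ (2 * u) ^ C := pow_le_pow_left₀ (by linarith) h1 C
  have h3 : c / (4 * u ^ 2) ≤ c / (1 + κ) ^ 2 := by
    refine div_le_div_of_nonneg_left hc.le (by positivity) ?_
    have h4 := pow_le_pow_left₀ (by linarith : (0 : ℝ) ≤ 1 + κ) h1 2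
    calc (1 + κ) ^ 2 ≤ (2 * u) ^ 2 := h4
      _ = 4 * u ^ 2 := by ring
  have hv0 : 0 < v := by linarith [h.hv2]
  have hC0 : (0 : ℝ) ≤ (C : ℝ) * 2 ^ C := by positivity
  have h5 : w ≤ c / (8 * u ^ 2) := by
    rw [le_div_iff₀ (by positivity)]
    have h6 : w * L * (8 * u ^ 2) ≤ c * L := by
      rw [h.hw]
      have h7 := h.uv3
      have h8 : 8 * v ≤ c * v * v := by
        have h9 := h.hv
        nlinarith
      calc u * (8 * u ^ 2) = 8 * u ^ 3 := by ring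
        _ ≤ 8 * v := by linarith
        _ ≤ c * v * v := h8
        _ = c * L := by rw [← h.v2]; ring
    have h10 : L * (w * (8 * u ^ 2)) ≤ L * c := by linarith
    exact le_of_mul_le_mul_left h10 hL0
  have h6 : m * (w - c / (1 + κ) ^ 2) ≤ -(c * L / (8 * u ^ 3)) := by
    have h7 : w - c / (1 + κ) ^ 2 ≤ -(c / (8 * u ^ 2)) := by
      have e : c / (4 * u ^ 2) = 2 * (c / (8 * u ^ 2)) := by field_simp; ring
      linarith
    have h8 : c * L / (8 * u ^ 3) = (L / u) * (c / (8 * u ^ 2)) := by field_simp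
    have h9 : (L / u) * (c / (8 * u ^ 2)) ≤ m * (c / (8 * u ^ 2)) :=
      mul_le_mul_of_nonneg_right hm (by positivity)
    have h10 : m * (w - c / (1 + κ) ^ 2) ≤ m * (-(c / (8 * u ^ 2))) :=
      mul_le_mul_of_nonneg_left h7 hm0.le
    rw [h8]
    linarith
  have h7 : (C : ℝ) * (1 + κ) ^ C ≤ c * L / (8 * u ^ 3) := by
    rw [le_div_iff₀ (by positivity)]
    calc (C : ℝ) * (1 + κ) ^ C * (8 * u ^ 3) ≤ C * (2 * u) ^ C * (8 * u ^ 3) := by
          refine mul_le_mul_of_nonneg_right ?_ (by positivity)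
          exact mul_le_mul_of_nonneg_left h2 (Nat.cast_nonneg C)
      _ = 8 * (C * 2 ^ C) * u ^ (C + 3) := by rw [mul_pow, pow_add]; ring
      _ = 8 * (C * 2 ^ C) * v := by rw [h.uv]
      _ ≤ (c * v) * v := by
          refine mul_le_mul_of_nonneg_right ?_ hv0.le
          linarith [h.hv]
      _ = c * L := by rw [← h.v2]; ring
  linarith

end Num

/-- one dyadic piece -/
theorem piece_le {C : ℕ} {c : ℝ}
    (hZ : ∀ (N N' : ℕ) (t κ : ℝ), 2 ≤ N → N ≤ N' → N' ≤ 2 * N → 1 / 2 ≤ κ → |t| = (N : ℝ) ^ κ →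
      ‖∑ n ∈ Finset.Ioc N N', (n : ℂ) ^ (-(t : ℂ) * Complex.I)‖ ≤
        Real.exp (C * (1 + κ) ^ C) * (N : ℝ) ^ (1 - c / (1 + κ) ^ 2 : ℝ))
    {L u v w t σ : ℝ} (h : Num C c L u v w) (ht : |t| = Real.exp L) (hσ : 1 - w ≤ σ)
    {M M' : ℕ} (hM1 : L / u ≤ Real.log M) (hM2 : Real.log M ≤ 2 * L) (hMM : M ≤ M')
    (hM' : M' ≤ 2 * M) :
    ‖∑ n ∈ Ioc M M', (n : ℂ) ^ (-(⟨σ, t⟩ : ℂ))‖ ≤ 1 := by
  have hL := h.L4
  have hu := h.u1
  have hL0 : 0 < L := by linarith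
  have hm0 : 0 < Real.log M := lt_of_lt_of_le (by positivity) hM1
  have hM2' : 2 ≤ M := by
    by_contra hcon
    have : M = 0 ∨ M = 1 := by omega
    rcases this with rfl | rfl <;> simp at hm0
  have hMR : (0 : ℝ) < M := by exact_mod_cast (by omega : 0 < M)
  set κ : ℝ := L / Real.log M with hκ
  have hκ2 : 1 / 2 ≤ κ := by
    rw [hκ, le_div_iff₀ hm0]
    linarith
  have htκ : |t| = (M : ℝ) ^ κ := by
    rw [ht, Real.rpow_def_of_pos hMR, hκ]
    congr 1
    field_simp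
  have hσ0 : 0 ≤ σ := by
    have := h.w_le
    linarith
  have h1 : ∑ n ∈ Ioc M M', (n : ℂ) ^ (-(⟨σ, t⟩ : ℂ)) =
      ∑ n ∈ Ioc M M', ((((n : ℝ) ^ (-σ) : ℝ)) : ℂ) * (n : ℂ) ^ (-(t : ℂ) * Complex.I) := by
    refine Finset.sum_congr rfl fun n hn => ?_
    rw [Finset.mem_Ioc] at hn
    exact term_eq (by omega) σ t
  rw [h1]
  have h2 := abel' (a := fun n : ℕ => (n : ℝ) ^ (-σ))
    (z := fun n : ℕ => (n : ℂ) ^ (-(t : ℂ) * Complex.I)) (B := Real.exp (C * (1 + κ) ^ C) *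
      (M : ℝ) ^ (1 - c / (1 + κ) ^ 2 : ℝ)) hMM (by
      intro n hn
      have hn0 : (0 : ℝ) < n := by exact_mod_cast (by omega : 0 < n)
      refine Real.rpow_le_rpow_of_nonpos hn0 ?_ (by linarith)
      push_cast
      linarith) (by positivity) (by
      intro k hk hk'
      exact hZ M k t κ hM2' hk (by omega) hκ2 htκ)
  refine h2.trans ?_
  have h3 : (M : ℝ) ^ (-σ) * (Real.exp (C * (1 + κ) ^ C) * (M : ℝ) ^ (1 - c / (1 + κ) ^ 2 : ℝ)) =
      Real.exp (C * (1 + κ) ^ C + Real.log M * (1 - σ - c / (1 + κ) ^ 2)) := by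
    rw [Real.rpow_def_of_pos hMR, Real.rpow_def_of_pos hMR, ← Real.exp_add, ← Real.exp_add]
    congr 1
    ring
  rw [h3]
  refine le_trans (Real.exp_le_exp.2 ?_) (le_of_eq Real.exp_zero)
  have h4 := h.piece hM1 hκ
  have h5 : Real.log M * (1 - σ - c / (1 + κ) ^ 2) ≤ Real.log M * (w - c / (1 + κ) ^ 2) :=
    mul_le_mul_of_nonneg_left (by linarith) hm0.le
  linarith

/-- all the pieces -/
theorem pieces_le {C : ℕ} {c : ℝ}
    (hZ : ∀ (N N' : ℕ) (t κ : ℝ), 2 ≤ N → N ≤ N' → N' ≤ 2 * N → 1 / 2 ≤ κ → |t| = (N : ℝ) ^ κ →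
      ‖∑ n ∈ Finset.Ioc N N', (n : ℂ) ^ (-(t : ℂ) * Complex.I)‖ ≤
        Real.exp (C * (1 + κ) ^ C) * (N : ℝ) ^ (1 - c / (1 + κ) ^ 2 : ℝ))
    {L u v w t σ : ℝ} (h : Num C c L u v w) (ht : |t| = Real.exp L) (hσ : 1 - w ≤ σ)
    {Y N : ℕ} (hY0 : 1 ≤ Y) (hY : L / u ≤ Real.log Y) (hN : Real.log N ≤ 2 * L) (hYN : Y ≤ N)
    (i : ℕ) :
    ‖∑ n ∈ Ioc Y (min (2 ^ i * Y) N), (n : ℂ) ^ (-(⟨σ, t⟩ : ℂ))‖ ≤ i := by
  induction i with
  | zero => simp [min_eq_left hYN]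
  | succ i ih =>
    have hYi : Y ≤ 2 ^ i * Y := Nat.le_mul_of_pos_left _ (by positivity)
    have hP1 : Y ≤ min (2 ^ i * Y) N := le_min hYi hYN
    have hP2 : min (2 ^ i * Y) N ≤ min (2 ^ (i + 1) * Y) N := by
      refine min_le_min_right _ ?_
      rw [pow_succ]
      nlinarith [hYi]
    have hP3 : min (2 ^ (i + 1) * Y) N ≤ 2 * min (2 ^ i * Y) N := by
      rw [pow_succ]
      rcases le_total (2 ^ i * Y) N with h1 | h1
      · rw [min_eq_left h1]
        refine (min_le_left _ _).trans (le_of_eq ?_)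
        ring
      · rw [min_eq_right h1]
        exact (min_le_right _ _).trans (by omega)
    rw [← Finset.sum_Ioc_consecutive _ hP1 hP2]
    have hY0R : (0 : ℝ) < Y := by exact_mod_cast (by omega : 0 < Y)
    have hPpos : (0 : ℝ) < ((min (2 ^ i * Y) N : ℕ) : ℝ) := by
      exact_mod_cast (lt_of_lt_of_le (by omega : 0 < Y) hP1)
    have h1 := piece_le hZ h ht hσ (M := min (2 ^ i * Y) N) (M' := min (2 ^ (i + 1) * Y) N)
      (hY.trans (Real.log_le_log hY0R (by exact_mod_cast hP1)))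
      ((Real.log_le_log hPpos (by exact_mod_cast min_le_right _ _)).trans hN) hP2 hP3
    push_cast
    exact (norm_add_le _ _).trans (add_le_add ih h1)

/-- the bound under the numerical conditions -/
theorem main_le {C : ℕ} {c : ℝ}
    (hZ : ∀ (N N' : ℕ) (t κ : ℝ), 2 ≤ N → N ≤ N' → N' ≤ 2 * N → 1 / 2 ≤ κ → |t| = (N : ℝ) ^ κ →
      ‖∑ n ∈ Finset.Ioc N N', (n : ℂ) ^ (-(t : ℂ) * Complex.I)‖ ≤
        Real.exp (C * (1 + κ) ^ C) * (N : ℝ) ^ (1 - c / (1 + κ) ^ 2 : ℝ))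
    {L u v w t σ : ℝ} (h : Num C c L u v w) (ht : |t| = Real.exp L) (hσ : 1 - w ≤ σ)
    (hσ3 : σ ≤ 3) : ‖riemannZeta ⟨σ, t⟩‖ ≤ 20 * L := by
  have hL := h.L4
  have hu := h.u1
  have hL0 : 0 < L := by linarith
  have hu0 : 0 < u := by linarith
  have huL := h.u_le
  have hw := h.w0
  have hw2 := h.w_le
  have hσ2 : 1 / 2 ≤ σ := by linarith
  have hE4 : (5 : ℝ) ≤ Real.exp L := by
    have := Real.add_one_le_exp L
    linarith
  have hE2 : Real.exp (2 * L) = Real.exp L * Real.exp L := by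
    rw [← Real.exp_add]
    congr 1
    ring
  have hLu : L / u ≤ L := div_le_self hL0.le hu
  have hLu0 : 0 < L / u := by positivity
  set s : ℂ := ⟨σ, t⟩ with hs
  set N : ℕ := ⌊Real.exp (2 * L)⌋₊ with hNdef
  set Y : ℕ := ⌈Real.exp (L / u)⌉₊ with hYdef
  have hN1 : (N : ℝ) ≤ Real.exp (2 * L) := Nat.floor_le (Real.exp_pos _).le
  have hN2 : Real.exp (2 * L) / 2 ≤ N := by
    have h1 := Nat.lt_floor_add_one (Real.exp (2 * L))
    rw [← hNdef] at h1
    nlinarith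
  have hN0 : (0 : ℝ) < N := lt_of_lt_of_le (by positivity) hN2
  have hN1' : 1 ≤ N := by
    have : 0 < N := by exact_mod_cast hN0
    exact this
  have hlogN : Real.log N ≤ 2 * L := by
    rw [← Real.log_exp (2 * L)]
    exact Real.log_le_log hN0 hN1
  have hY1 : Real.exp (L / u) ≤ Y := Nat.le_ceil _
  have hY2 : (Y : ℝ) ≤ Real.exp (L / u + 1) := by
    have h1 : (Y : ℝ) < Real.exp (L / u) + 1 := Nat.ceil_lt_add_one (Real.exp_pos _).le
    have h2 : (1 : ℝ) ≤ Real.exp (L / u) := Real.one_le_exp hLu0.le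
    have h3 := Real.exp_one_gt_d9
    rw [Real.exp_add]
    nlinarith
  have hY0 : (0 : ℝ) < Y := lt_of_lt_of_le (Real.exp_pos _) hY1
  have hY1' : 1 ≤ Y := by
    have : 0 < Y := by exact_mod_cast hY0
    exact this
  have hlogY : L / u ≤ Real.log Y := by
    rw [← Real.log_exp (L / u)]
    exact Real.log_le_log (Real.exp_pos _) hY1
  have hlogY2 : Real.log Y ≤ L / u + 1 := by
    rw [← Real.log_exp (L / u + 1)]
    exact Real.log_le_log hY0 hY2
  have hYN : Y ≤ N := by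
    rw [hNdef]
    refine Nat.le_floor ?_
    have h1 : (Y : ℝ) < Real.exp (L / u) + 1 := Nat.ceil_lt_add_one (Real.exp_pos _).le
    have h2 : Real.exp (L / u) ≤ Real.exp L := Real.exp_le_exp.2 hLu
    rw [hE2]
    nlinarith
  -- the powers
  have hpow : ∀ n : ℕ, 1 ≤ n → (n : ℝ) ^ (1 - σ) ≤ Real.exp (w * Real.log n) := by
    intro n hn
    have hn0 : (0 : ℝ) < n := by exact_mod_cast (by omega : 0 < n)
    have hn1 : (1 : ℝ) ≤ n := by exact_mod_cast hn
    rw [Real.rpow_def_of_pos hn0]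
    refine Real.exp_le_exp.2 ?_
    rw [mul_comm w]
    exact mul_le_mul_of_nonneg_left (by linarith) (Real.log_nonneg hn1)
  have hNpow : (N : ℝ) ^ (1 - σ) ≤ Real.exp L := by
    refine (hpow N hN1').trans (Real.exp_le_exp.2 ?_)
    have h1 : w * Real.log N ≤ w * (2 * L) := mul_le_mul_of_nonneg_left hlogN hw.le
    have h2 := h.hw
    linarith
  -- the first part of the sum
  have hfirst : ‖∑ n ∈ Ioc 0 Y, (n : ℂ) ^ (-s)‖ ≤ 8 * (2 + L) := by
    have h1 : ∀ n ∈ Ioc 0 Y, ‖(n : ℂ) ^ (-s)‖ ≤ 8 * (1 / (n : ℝ)) := by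
      intro n hn
      rw [Finset.mem_Ioc] at hn
      have hn0 : (0 : ℝ) < n := by exact_mod_cast hn.1
      rw [Complex.norm_natCast_cpow_of_pos hn.1]
      have e1 : (-s).re = (1 - σ) + (-1) := by
        rw [hs, Complex.neg_re]
        ring
      rw [e1, Real.rpow_add hn0, Real.rpow_neg_one, ← one_div]
      refine mul_le_mul_of_nonneg_right ?_ (by positivity)
      refine (hpow n hn.1).trans ?_
      have h2 : w * Real.log n ≤ 2 := by
        have h3 : Real.log n ≤ L / u + 1 :=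
          (Real.log_le_log hn0 (by exact_mod_cast hn.2)).trans hlogY2
        have h4 : w * Real.log n ≤ w * (L / u + 1) := mul_le_mul_of_nonneg_left h3 hw.le
        have h5 : w * (L / u + 1) = 1 + w := by
          rw [mul_add, mul_one, mul_div_assoc', h.hw, div_self hu0.ne']
        linarith
      have h3 : Real.exp (w * Real.log n) ≤ Real.exp 2 := Real.exp_le_exp.2 h2
      have h4 : Real.exp 2 ≤ 8 := by
        have h5 := Real.exp_one_lt_d9
        have h6 : Real.exp 2 = Real.exp 1 * Real.exp 1 := by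
          rw [← Real.exp_add]; norm_num
        rw [h6]
        have h7 := Real.exp_pos 1
        nlinarith
      linarith
    refine (norm_sum_le_of_le _ h1).trans ?_
    rw [← Finset.mul_sum]
    refine mul_le_mul_of_nonneg_left ?_ (by norm_num)
    have h2 : ∑ n ∈ Ioc 0 Y, 1 / (n : ℝ) = (harmonic Y : ℝ) := by
      rw [harmonic_eq_sum_Icc]
      push_cast
      refine Finset.sum_congr ?_ fun n _ => one_div _
      ext n
      simp [Finset.mem_Ioc, Finset.mem_Icc, Nat.one_le_iff_ne_zero, Nat.pos_iff_ne_zero]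
    rw [h2]
    have h3 := harmonic_le_one_add_log Y
    linarith
  -- the pieces
  have hsecond : ‖∑ n ∈ Ioc Y N, (n : ℂ) ^ (-s)‖ ≤ 3 * L + 1 := by
    have h1 := pieces_le hZ h ht hσ hY1' hlogY hlogN hYN (Nat.log 2 N + 1)
    have h2 : N ≤ 2 ^ (Nat.log 2 N + 1) * Y := by
      have h3 : N < 2 ^ (Nat.log 2 N + 1) := Nat.lt_pow_succ_log_self (by norm_num) N
      exact h3.le.trans (Nat.le_mul_of_pos_right _ (by omega))
    rw [min_eq_right h2] at h1
    refine h1.trans ?_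
    push_cast
    have h3 : (2 : ℝ) ^ (Nat.log 2 N) ≤ N := by
      exact_mod_cast Nat.pow_log_le_self 2 (by omega)
    have h4 := Real.log_le_log (by positivity) h3
    rw [Real.log_pow] at h4
    have h5 := Real.log_two_gt_d9
    have h6 : (0 : ℝ) ≤ (Nat.log 2 N : ℝ) := Nat.cast_nonneg _
    nlinarith
  have hDN : ‖ZU.DN N s‖ ≤ 8 * (2 + L) + (3 * L + 1) := by
    have h1 : ZU.DN N s = ∑ n ∈ Ioc 0 Y, (n : ℂ) ^ (-s) + ∑ n ∈ Ioc Y N, (n : ℂ) ^ (-s) := by
      rw [Finset.sum_Ioc_consecutive _ (Nat.zero_le _) hYN]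
      rfl
    rw [h1]
    exact (norm_add_le _ _).trans (add_le_add hfirst hsecond)
  -- the remaining terms
  have htn : ‖s - 1‖ ≥ Real.exp L := by
    rw [← ht]
    have h1 := Complex.abs_im_le_norm (s - 1)
    simpa [hs] using h1
  have hs1 : s ≠ 1 := by
    intro h0
    rw [h0, sub_self, norm_zero] at htn
    linarith
  have hsn : ‖s‖ ≤ 2 * Real.exp L := by
    have h1 := Complex.norm_le_abs_re_add_abs_im s
    have h2 : |s.re| ≤ 3 := by
      rw [abs_le]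
      constructor
      · show -3 ≤ σ
        linarith
      · exact hσ3
    have h3 : |s.im| = Real.exp L := ht
    linarith
  have hmain : ‖(N : ℂ) ^ (1 - s) / (s - 1)‖ ≤ 1 := by
    rw [norm_div, Complex.norm_natCast_cpow_of_pos (by omega)]
    have e1 : (1 - s).re = 1 - σ := by simp [hs]
    rw [e1, div_le_one (by linarith)]
    linarith
  have hint : ‖∫ x in Set.Ioi (N : ℝ), ((Int.fract x : ℝ) : ℂ) * (x : ℂ) ^ (-s - 1)‖ ≤
      (N : ℝ) ^ (-σ) / σ := by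
    have h1 : MeasureTheory.IntegrableOn (fun x : ℝ => x ^ (-σ - 1)) (Set.Ioi (N : ℝ)) :=
      integrableOn_Ioi_rpow_of_lt (by linarith) hN0
    have h2 : ∫ x in Set.Ioi (N : ℝ), x ^ (-σ - 1) = (N : ℝ) ^ (-σ) / σ := by
      rw [integral_Ioi_rpow_of_lt (by linarith) hN0]
      have e1 : -σ - 1 + 1 = -σ := by ring
      rw [e1, neg_div_neg_eq]
    rw [← h2]
    refine MeasureTheory.norm_integral_le_of_norm_le h1 ?_
    refine (MeasureTheory.ae_restrict_iff' measurableSet_Ioi).2 (Eventually.of_forall ?_)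
    intro x (hx : (N : ℝ) < x)
    have hx0 : 0 < x := hN0.trans hx
    rw [norm_mul, Complex.norm_real, Real.norm_of_nonneg (Int.fract_nonneg x),
      Complex.norm_cpow_eq_rpow_re_of_pos hx0]
    have e1 : (-s - 1).re = -σ - 1 := by simp [hs]
    rw [e1]
    exact mul_le_of_le_one_left (Real.rpow_nonneg hx0.le _) (Int.fract_lt_one x).le
  have herr : ‖s * ∫ x in Set.Ioi (N : ℝ), ((Int.fract x : ℝ) : ℂ) * (x : ℂ) ^ (-s - 1)‖ ≤ 8 := by
    rw [norm_mul]
    have h1 : (N : ℝ) ^ (-σ) ≤ 2 / Real.exp L := by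
      have e1 : -σ = (1 - σ) + (-1) := by ring
      rw [e1, Real.rpow_add hN0, Real.rpow_neg_one]
      rw [le_div_iff₀ (Real.exp_pos _), ← div_eq_mul_inv, div_mul_eq_mul_div, div_le_iff₀ hN0]
      have h2 : (N : ℝ) ^ (1 - σ) * Real.exp L ≤ Real.exp L * Real.exp L :=
        mul_le_mul_of_nonneg_right hNpow (Real.exp_pos _).le
      rw [← hE2] at h2
      linarith
    have h3 : (N : ℝ) ^ (-σ) / σ ≤ 4 / Real.exp L := by
      rw [div_le_iff₀ (by linarith)]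
      have h4 : 4 / Real.exp L * σ = (2 / Real.exp L) * (2 * σ) := by ring
      rw [h4]
      have h5 : 0 < 2 / Real.exp L := by positivity
      nlinarith
    calc ‖s‖ * ‖∫ x in Set.Ioi (N : ℝ), ((Int.fract x : ℝ) : ℂ) * (x : ℂ) ^ (-s - 1)‖
        ≤ (2 * Real.exp L) * (4 / Real.exp L) :=
          mul_le_mul hsn (hint.trans h3) (norm_nonneg _) (by positivity)
      _ = 8 := by
          field_simp
          norm_num
  rw [ZU.zeta_formula N hN1' s (by show 0 < σ; linarith) hs1]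
  have h9 := norm_sub_le (ZU.DN N s + (N : ℂ) ^ (1 - s) / (s - 1))
    (s * ∫ x in Set.Ioi (N : ℝ), ((Int.fract x : ℝ) : ℂ) * (x : ℂ) ^ (-s - 1))
  have h10 := norm_add_le (ZU.DN N s) ((N : ℂ) ^ (1 - s) / (s - 1))
  linarith

/-- ZETA -/
theorem zeta_up (h : Pool.Agent.Y957.VK.S_ZS) : Pool.Agent.Y957.VK.S_ZETA := by
  obtain ⟨C, c, hc, hc1, hZ⟩ := h
  set δ : ℝ := 1 / (2 * ((C : ℝ) + 3)) with hδ
  have hC0 : (0 : ℝ) ≤ C := Nat.cast_nonneg C
  have hδ0 : 0 < δ := by positivity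
  have hδ1 : δ < 1 := by
    rw [hδ, div_lt_one (by positivity)]
    linarith
  set Q : ℝ := 8 * (1 + C * 2 ^ C) / c + 2 with hQ
  have hQ2 : 2 ≤ Q := by
    have : 0 ≤ 8 * (1 + (C : ℝ) * 2 ^ C) / c := by positivity
    linarith
  refine ⟨δ, 20, Real.exp (Q ^ 2), hδ0, hδ1, by norm_num, ?_, ?_⟩
  · have h1 := Real.add_one_le_exp (Q ^ 2)
    nlinarith
  · intro σ t ht hσ hσ3
    have ht0 : 0 < |t| := lt_of_lt_of_le (Real.exp_pos _) ht
    set L : ℝ := Real.log |t| with hLdef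
    have hLQ : Q ^ 2 ≤ L := by
      rw [hLdef, ← Real.log_exp (Q ^ 2)]
      exact Real.log_le_log (Real.exp_pos _) ht
    have hL4 : 4 ≤ L := by nlinarith
    have hL0 : 0 < L := by linarith
    have hv : Q ≤ Real.sqrt L := by
      rw [Real.le_sqrt' (by linarith)]
      exact hLQ
    refine main_le hZ (L := L) (u := L ^ δ) (v := Real.sqrt L) (w := L ^ (δ - 1)) ?_ ?_ hσ hσ3
    · refine ⟨hc, Real.one_le_rpow (by linarith) hδ0.le, ?_, Real.sq_sqrt hL0.le, ?_,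
        hQ2.trans hv, ?_⟩
      · rw [← Real.rpow_natCast, ← Real.rpow_mul hL0.le, Real.sqrt_eq_rpow]
        congr 1
        rw [hδ]
        push_cast
        field_simp
      · have h1 : 8 * (1 + (C : ℝ) * 2 ^ C) / c ≤ Real.sqrt L := by linarith
        rw [div_le_iff₀ hc] at h1
        linarith
      · rw [← Real.rpow_add_one hL0.ne']
        congr 1
        ring
    · rw [hLdef, Real.exp_log ht0]

end Pool.Agent.Y306.VK
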